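import Pool.Agent.TH272.WH.Sub

/-!
# Almost all labelled oriented trees have aspherical complexes

A labelled tree is a tree with vertices `0, …, n-1` with a label of every edge, which is a vertex and
not an end point of the edge. An orientation `o` of its edges gives a labelled oriented tree; its
2-complex `K(o)` is the complex of the presentation with generators the vertices and the `n - 1`
relators `i(e) λ(e) t(e)⁻¹ λ(e)⁻¹` (Wirtinger presentations of ribbon disc complements). If one more
2-cell is attached along one generator, the result is a finite contractible 2-complex: it has `n`
1-cells and `n` 2-cells, and its fundamental group is trivial (part (2) below). So `K(o)` and its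
subcomplexes are subcomplexes of finite contractible 2-complexes, the case of Whitehead's question
asked here. It is shown that this case has a positive answer for almost all labelled trees and all
their orientations:

(1) there are `n^(n-2) (n-2)^(n-1)` labelled trees with vertices `0, …, n-1`;
(2) killing one generator of a labelled oriented tree gives the trivial group;
(3) for all labelled trees but the proportion `10^24 (log n)^6 / n`, all subcomplexes of the
complexes `K(o)` of all `2^(n-1)` orientations `o` are diagrammatically reducible.

The definitions `LOG`, `SphericalDiagram`, `Reduced`, `DR` are in `Pool.Agent.H891R2.RL.Defs` of the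
starting library. Diagrammatic reducibility (no reduced spherical diagrams) is a well known condition
which implies that the 2-complex is aspherical (Sieradski, Gersten).

The proof combines the local sparsity test of the starting library (results `MP_894d9a_gt.SparseLOG`,
and `MP_894d9a_gt.RandomLOT` for the labellings of one fixed oriented tree with small degrees) with
Cayley's formula and a count of the trees with a vertex of large degree by their parent functions.
-/

set_option autoImplicit false

namespace Pool.Agent.Results.MP_6de9fc_gt.AlmostAllTrees

open Pool.Agent.H891R2.RL Pool.Agent.TH272.WH

/-- **Almost all labelled trees are diagrammatically reducible, for all orientations.** -/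
theorem result (n : ℕ) (hn : 3 ≤ n) :
    Nat.card (LabelledTree n) = n ^ (n - 2) * (n - 2) ^ (n - 1) ∧
    (∀ (x : LabelledTree n) (o : Orientation x) (v : Fin n),
      ∀ g : PresentedGroup (Set.range (fun e => word (o.log.rel e)) ∪ {FreeGroup.of v}), g = 1) ∧
    (Nat.card {x : LabelledTree n // ∃ (o : Orientation x) (S : Set x.tree.edgeSet),
        ¬ DR (fun e : S => o.log.rel e)} : ℝ) ≤
      10 ^ 24 * Real.log n ^ 6 / n * (Nat.card (LabelledTree n) : ℝ) :=
  ⟨card_all (by omega), triv, main_sub hn⟩

end Pool.Agent.Results.MP_6de9fc_gt.AlmostAllTrees
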