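import Pool.Agent.TH309.LF.Asph

/-!
# Contracting extensions of presentation complexes

Let `L₀` be the presentation complex of an arbitrary presentation `⟨X₀ | R₀⟩` of a group `P`, let
`π : P → ℤ` be a homomorphism and `t` a word with `π t = 1`.  Let `L` be obtained from `L₀` by
adding new generators `e : E` and one new relation `e = u(e)` for each of them, where `u(e)` lies
in the subgroup generated by the words of `ker π` and the words `tʲ e' t⁻ʲ`, `j ≥ 1`.  Then `P`
embeds in the group of `L`, and `L` is aspherical if and only if `L₀` is.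
-/

set_option autoImplicit false

namespace Pool.Agent.Results.MP_6de9fc_gt.ContractingExtensions

open Pool.Agent.TH309.LF

universe u

theorem result {X₀ R₀ E : Type u} (rel₀ : R₀ → FreeGroup X₀)
    (π : FreeGroup X₀ →* Multiplicative ℤ) (hπ : ∀ r, π (rel₀ r) = 1)
    (t : FreeGroup X₀) (ht : π t = Multiplicative.ofAdd 1)
    (u : E → FreeGroup (X₀ ⊕ E)) (hu : ∀ e, u e ∈ aboveW π t E) :
    Function.Injective (incl rel₀ u) ∧
      (Aspherical rel₀ ↔ Aspherical (newRel rel₀ u)) :=
  ⟨incl_injective rel₀ π t u hπ ht hu, aspherical_new rel₀ π t u hπ ht hu,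
    aspherical_old rel₀ π t u hπ ht hu⟩

end Pool.Agent.Results.MP_6de9fc_gt.ContractingExtensions
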