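import Pool.Agent.TH625.LOG.Lay

/-!
# Labelled oriented trees whose graph `I` has layered components with at most one cycle

Definitions (`Pool.Agent.TH625.LOG.Core`, `.Tree`, `.LI`, `.Met`, `.Main`, `.Uni`, `.Lay`):

* `LOG V E` (labelled oriented graph), `L.rel e = x_ini x_lab x_ter⁻¹ x_lab⁻¹`, `L.G` the group with
  generators `V` and relators `L.rel e`;
* `I` is the graph on `V` in which the edge `e` joins `ini e` and `lab e` (`L.Joins`);
  `L.JPath S T a b`: `a` and `b` are joined by a path of `I` inside `T` which avoids the edges `S`;
* `L.AlexCocycle (-1) 1 s`: `s (lab e) l + s (ini e) (l - 1) = s (ter e) l + s (lab e) (l - 1)`, i.e.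
  the functions `s v : ℤ → ℝ` are the values of a real functional on the Alexander module;
* `L.LayerTest`: the components of `I` are `C_0, ..., C_k` (levels `lev`), `C_0` is a tree, the
  others have exactly one cycle (this follows by counting), an edge of level `a + 1` (i.e. in
  `C_(a+1)`) ends in `C_a` or a higher level, an edge `σ a` of the cycle of `C_(a+1)` ends in
  `C_a`, and a real functional on the Alexander module is smaller at the labels of the other edges
  of level `a + 1` ending in `C_a` (only edges inside a set `W` have to be considered);
* `L.FreeSides`, `L.Folds` (reducibility of closed diagrams), `L.bdry` (boundary operator `C₂ → C₁`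
  of the universal covering), `LocInd` (locally indicable), `L.Conn` (connected),
  `L.ContractibleWith v₀`: `L ∪ f`, `∂f = x_{v₀}`, is contractible.
-/

set_option autoImplicit false

namespace Pool.Agent.Results.MP_6de9fc_gt.LayeredCycles

open Pool.Agent.TH625.LOG

/-- Let `L` be the complex of a labelled oriented graph with one more vertex than edges (e.g. a
labelled oriented tree) which passes `LayerTest`.  Then `L` is diagrammatically reducible,
`π₂(L) = 0` and the group of `L` is locally indicable; if the graph is a tree, `L` becomes
contractible by adding one 2-cell. -/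
theorem result (V E : Type) [Fintype V] [DecidableEq V] [Fintype E] (L : LOG V E)
    (hcard : Fintype.card V = Fintype.card E + 1) (h : L.LayerTest) :
    (L.FreeSides ∧ L.Folds ∧ ∀ x, L.bdry x = 0 → x = 0) ∧ LocInd L.G ∧
      (L.Conn → ∀ v₀ : V, L.ContractibleWith v₀) := by
  have hm := metabelian_of_layer L hcard h
  obtain ⟨ρ, -, ho⟩ := orderedTest_of_metabelian L hm
  have hf := freeSides_of_ordered L ρ ho
  exact ⟨⟨hf, folds L hf, bdry_inj L hf⟩, locInd_of_metabelian L hm,
    fun hc v₀ => contractibleWith L hc hcard v₀⟩

end Pool.Agent.Results.MP_6de9fc_gt.LayeredCycles
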