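import Pool.Agent.TH309.LF.RelAsph

/-!
# Layered labelled oriented graphs over an arbitrary presentation complex

Let `L₀` be the presentation complex of an arbitrary presentation `⟨X₀ | R₀⟩` of a group `P`, let
`π : P → ℤ` be a homomorphism, and let `L` be obtained from `L₀` by adding new generators `v : V`
and the relations `ini(e) lab(e) = lab(e) ter(e)`, `e : E`, where `ini(e)`, `ter(e)`, `lab(e)` are
new generators or words `w o` in the old generators with `π (w o) = 1`.  If the vertices and edges
have levels such that at each level the initial graph, or at each level the terminal graph (the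
choice may depend on the level), is a forest relative to the lower levels, then `P` embeds in the
group of `L`, and `L` is aspherical if and only if `L₀` is.
-/

set_option autoImplicit false

namespace Pool.Agent.Results.MP_6de9fc_gt.RelativeLayeredLOGs

open Pool.Agent.TH309.LF

universe u v

theorem result {L : Type v} [LinearOrder L] {X₀ R₀ O V E : Type u} (rel₀ : R₀ → FreeGroup X₀)
    (π : FreeGroup X₀ →* Multiplicative ℤ) (hπ : ∀ r, π (rel₀ r) = 1)
    (w : O → FreeGroup X₀) (hw : ∀ o, π (w o) = Multiplicative.ofAdd 1)
    (ini ter lab : E → O ⊕ V) (lev : V → L) (elev : E → L) (fwd : L → Bool)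
    (hini : ∀ e v, ini e = Sum.inr v → lev v ≤ elev e)
    (hter : ∀ e v, ter e = Sum.inr v → lev v ≤ elev e)
    (hlab : ∀ e v, lab e = Sum.inr v → lev v ≤ elev e)
    (hleaf : LeafyLevels ini ter lab lev elev fwd) :
    Function.Injective (inclLog rel₀ w ini ter lab) ∧
      (Aspherical rel₀ ↔ Aspherical (logRel rel₀ w ini ter lab)) :=
  ⟨inclLog_injective rel₀ w ini ter lab π fwd hπ hw lev elev hini hter hlab hleaf,
    log_aspherical_new rel₀ w ini ter lab π fwd hπ hw lev elev hini hter hlab hleaf,
    log_aspherical_old rel₀ w ini ter lab π fwd hπ hw lev elev hini hter hlab hleaf⟩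

end Pool.Agent.Results.MP_6de9fc_gt.RelativeLayeredLOGs
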